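import Pool.Agent.W860.FL.Final

set_option autoImplicit false
open scoped Pointwise

namespace Pool.Agent.Results.MP_dd2a7c_co.LinearContainment

/-- Freiman's theorem in an arbitrary abelian group with bounds of the optimal order: a finite
nonempty set `A` with `|A+A| ≤ K|A|` is contained in a coset progression
`a₀ + {∑ c_i v_i : |c_i| ≤ L_i} + H` of rank `n ≤ C K` and volume
`∏ (2 L_i + 1) |H| ≤ exp(C K) |A|`, in which all but `C log (2K)` of the sides have `L_i ≤ 1`
(`C = 300000000000`). -/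
theorem result {Γ : Type*} [AddCommGroup Γ] [DecidableEq Γ] (K : ℝ) (A : Finset Γ)
    (hA : A.Nonempty) (hK : ((A + A).card : ℝ) ≤ K * (A.card : ℝ)) :
    ∃ (n : ℕ) (v : Fin n → Γ) (L : Fin n → ℕ) (H : AddSubgroup Γ) (a₀ : Γ),
      (n : ℝ) ≤ 300000000000 * K ∧
      ((Finset.univ.filter fun i => 2 ≤ L i).card : ℝ) ≤ 30000 * Real.log (2 * K) ∧
      Finite H ∧
      ((∏ i, (2 * L i + 1) : ℕ) : ℝ) * (Nat.card H : ℝ) ≤
        Real.exp (300000000000 * K) * (A.card : ℝ) ∧
      ∀ a ∈ A, ∃ c : Fin n → ℤ, (∀ i, |c i| ≤ L i) ∧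
        ∃ h ∈ H, a = a₀ + ∑ i, c i • v i + h :=
  W860.FL.containment hA hK

end Pool.Agent.Results.MP_dd2a7c_co.LinearContainment
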