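import Pool.Agent.W860.PC.Final

set_option autoImplicit false
open scoped Pointwise

namespace Pool.Agent.Results.MP_dd2a7c_co.PolynomialCover

/-- Freiman-Ruzsa theorem in an arbitrary abelian group with polynomially many translates of a
progression of logarithmic dimension: for every `ε ∈ (0, 1]`, a finite nonempty set with
`|A+A| ≤ K|A|` is covered by `(2K)^(30000/ε)` translates of a centred convex coset progression of
dimension at most `(30000/ε) log 2K` and volume at most `exp((30000/ε) (log 2K)^(1+ε)) |A|`. -/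
theorem result {Γ : Type*} [AddCommGroup Γ] [DecidableEq Γ] (ε : ℝ) (hε0 : 0 < ε) (hε1 : ε ≤ 1)
    (K : ℝ) (A : Finset Γ) (hA : A.Nonempty) (hK : ((A + A).card : ℝ) ≤ K * (A.card : ℝ)) :
    ∃ (d : ℕ) (B : Set (Fin d → ℝ)) (ψ : (Fin d → ℤ) →+ Γ) (H : AddSubgroup Γ) (T : Finset Γ),
      (d : ℝ) ≤ 30000 / ε * Real.log (2 * K) ∧
      Convex ℝ B ∧ IsCompact B ∧ (interior B).Nonempty ∧ (∀ x ∈ B, -x ∈ B) ∧
      Finite H ∧
      (({x : Fin d → ℤ | (fun i => (x i : ℝ)) ∈ B}.ncard : ℝ) * (Nat.card H : ℝ)) ≤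
        Real.exp (30000 / ε * Real.log (2 * K) ^ (1 + ε)) * (A.card : ℝ) ∧
      (T.card : ℝ) ≤ (2 * K) ^ (30000 / ε) ∧
      ∀ a ∈ A, ∃ t ∈ T, ∃ x : Fin d → ℤ, (fun i => (x i : ℝ)) ∈ B ∧
        ∃ h ∈ H, a = t + ψ x + h := by
  obtain ⟨d, B, ψ, H, T, hd, hB, hH, hvol, hT, hcov⟩ := W860.PC.poly_cover hA hK hε0 hε1
  refine ⟨d, B, ψ, H, T, hd, hB.1, hB.2.1, hB.2.2.1, hB.2.2.2, hH, ?_, hT, hcov⟩
  rw [Nat.cast_mul] at hvol
  exact hvol

end Pool.Agent.Results.MP_dd2a7c_co.PolynomialCover
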