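import Pool.Agent.W859.Tor.Main

set_option autoImplicit false
open scoped Pointwise

namespace Pool.Agent.Results.MP_dd2a7c_co.TorsionPolylog

/-- Marton's conjecture in an arbitrary abelian group whose exponent divides `m`, with an exponent
that is polylogarithmic in `m`: a finite nonempty set `A` with `|A+A| ≤ K|A|` is covered by
`(2K)^{1500000 (log 2m)^2}` translates of a finite subgroup of order at most `|A|`. -/
theorem result {Γ : Type*} [AddCommGroup Γ] [DecidableEq Γ] {m : ℕ} (hm : 0 < m)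
    (htor : ∀ x : Γ, m • x = 0) (K : ℝ) (A : Finset Γ) (hA : A.Nonempty)
    (hK : ((A + A).card : ℝ) ≤ K * (A.card : ℝ)) :
    ∃ (H : AddSubgroup Γ) (T : Finset Γ), Finite H ∧ Nat.card H ≤ A.card ∧
      (T.card : ℝ) ≤ (2 * K) ^ (1500000 * (Real.log (2 * m)) ^ 2) ∧
      ∀ a ∈ A, ∃ t ∈ T, a - t ∈ H :=
  W859.Tor.marton hm htor K A hA hK

end Pool.Agent.Results.MP_dd2a7c_co.TorsionPolylog
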